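import Mathlib

set_option autoImplicit false

/-! # Hall–Littlewood `P`-functions, Schur `Q`-functions and spin Kostka polynomials

Everything is stated in `N` variables, for all `N`. -/

namespace Pool.Agent.Q246.SK

open Polynomial

/-- The field of rational functions in the variables `x i`, `i < N`, and `t`. -/
abbrev F (N : ℕ) : Type := FractionRing (MvPolynomial (Fin N) ℤ[X])

/-- The variable `x i`. -/
noncomputable def x {N : ℕ} (i : Fin N) : F N :=
  algebraMap (MvPolynomial (Fin N) ℤ[X]) (F N) (MvPolynomial.X i)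

/-- A polynomial in `t` (the variable of `ℤ[X]`) as an element of the field. -/
noncomputable def c {N : ℕ} (p : ℤ[X]) : F N :=
  algebraMap (MvPolynomial (Fin N) ℤ[X]) (F N) (MvPolynomial.C p)

/-- `v_m(t) = ∏_{i=1}^m (1 - t^i) / (1 - t)`. -/
noncomputable def v (m : ℕ) : ℤ[X] :=
  ∏ i ∈ Finset.range m, ∑ j ∈ Finset.range (i + 1), X ^ j

/-- `v_μ(t) = ∏_k v_{m_k}(t)`, `m_k` the number of the `i < N` with `μ i = k`. -/
noncomputable def vPart {N : ℕ} (μ : Fin N → ℕ) : ℤ[X] :=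
  ∏ k ∈ Finset.univ.image μ, v (Finset.univ.filter fun i => μ i = k).card

/-- The Hall–Littlewood polynomial `P_μ(x_1, …, x_N; t)` of the partition
`μ 0 ≥ μ 1 ≥ ⋯ ≥ μ (N-1)` (Macdonald's formula):
`v_μ(t)⁻¹ ∑_w w (x^μ ∏_{i<j} (x_i - t x_j) / (x_i - x_j))`. -/
noncomputable def hallP {N : ℕ} (μ : Fin N → ℕ) : F N :=
  (∑ w : Equiv.Perm (Fin N), (∏ i, x (w i) ^ μ i) *
    ∏ p ∈ (Finset.univ : Finset (Fin N × Fin N)).filter (fun p => p.1 < p.2),
      (x (w p.1) - c X * x (w p.2)) / (x (w p.1) - x (w p.2))) / c (vPart μ)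

/-- The partitions of `n` with at most `N` parts, written with `N` parts `μ 0 ≥ ⋯ ≥ μ (N-1) ≥ 0`. -/
def parts (N n : ℕ) : Finset (Fin N → ℕ) :=
  (Fintype.piFinset fun _ => Finset.range (n + 1)).filter fun μ =>
    (∀ i j, i ≤ j → μ j ≤ μ i) ∧ ∑ i, μ i = n

/-- The list of the positive parts of `μ`. -/
def toList {N : ℕ} (μ : Fin N → ℕ) : List ℕ := (List.ofFn μ).filter fun a => a ≠ 0

/-- Marked shifted tableaux of shape `ξ` in the letters `1' < 1 < 2' < 2 < ⋯ < N' < N`, which are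
written as `0 < 1 < 2 < 3 < ⋯ < 2 N - 1`, so that the even letters are the primed ones.
`T i k` is the entry of the cell of row `i` and column `i + k`, `k < ξ i`. Rows and columns are
weakly increasing, no primed letter repeats in a row, no unprimed letter repeats in a column. -/
def IsTab {ξ : List ℕ} {N : ℕ} (T : (i : Fin ξ.length) → Fin (ξ.get i) → Fin (2 * N)) : Prop :=
  (∀ i, ∀ k k' : Fin (ξ.get i), k < k' →
    T i k ≤ T i k' ∧ (T i k = T i k' → ¬ Even (T i k : ℕ))) ∧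
  ∀ i i', ∀ (k : Fin (ξ.get i)) (k' : Fin (ξ.get i')), i < i' →
    (i : ℕ) + k = (i' : ℕ) + k' →
    T i k ≤ T i' k' ∧ (T i k = T i' k' → Even (T i k : ℕ))

/-- The number (counted from `0`) of the variable which belongs to a letter. -/
def num {N : ℕ} (a : Fin (2 * N)) : Fin N := ⟨(a : ℕ) / 2, by omega⟩

open Classical in
/-- The Schur `Q`-polynomial `Q_ξ(x_1, …, x_N)`. -/
noncomputable def schurQ (ξ : List ℕ) (N : ℕ) : F N :=
  ∑ T : (i : Fin ξ.length) → Fin (ξ.get i) → Fin (2 * N),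
    if IsTab T then ∏ i, ∏ k, x (num (T i k)) else 0

/-- `K ξ μ` are the spin Kostka polynomials: in every number `N` of variables
`Q_ξ = ∑_μ K ξ μ P_μ`, for every strict partition `ξ`. -/
def IsSpinKostka (K : List ℕ → List ℕ → ℤ[X]) : Prop :=
  ∀ ξ : List ℕ, ξ.Pairwise (fun a b => b < a) → (∀ a ∈ ξ, 0 < a) → ∀ N : ℕ,
    schurQ ξ N = ∑ μ ∈ parts N ξ.sum, c (K ξ (toList μ)) * hallP μ

/-- `t^m p(1/t) = p(t)`, as Laurent polynomials. -/
def Palindromic (p : ℤ[X]) : Prop :=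
  ∃ m : ℤ, LaurentPolynomial.T m * LaurentPolynomial.invert (Polynomial.toLaurent p) =
    Polynomial.toLaurent p

end Pool.Agent.Q246.SK
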