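import Mathlib

set_option autoImplicit false

/-! Explicit expansions of Hall–Littlewood polynomials in three variables. -/

namespace Pool.Agent.Q246.SK

section
variable {K : Type*} [CommRing K]

def m600 (x y z : K) : K := x^6 + y^6 + z^6
def m510 (x y z : K) : K := x^5*y + x^5*z + y^5*x + y^5*z + z^5*x + z^5*y
def m420 (x y z : K) : K := x^4*y^2 + x^4*z^2 + y^4*x^2 + y^4*z^2 + z^4*x^2 + z^4*y^2
def m411 (x y z : K) : K := x^4*y*z + y^4*x*z + z^4*x*y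
def m330 (x y z : K) : K := x^3*y^3 + x^3*z^3 + y^3*z^3
def m321 (x y z : K) : K := x^3*y^2*z + x^3*z^2*y + y^3*x^2*z + y^3*z^2*x + z^3*x^2*y + z^3*y^2*x
def m222 (x y z : K) : K := x^2*y^2*z^2

end

variable {K : Type*} [Field K]

/-- the symmetrizer of Hall and Littlewood in three variables -/
def hl (a b c : ℕ) (t : K) (x y z : K) : K :=
  x^a*y^b*z^c * ((x-t*y)/(x-y) * ((x-t*z)/(x-z)) * ((y-t*z)/(y-z)))

def HL (a b c : ℕ) (t : K) (x y z : K) : K :=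
  hl a b c t x y z + hl a b c t x z y + hl a b c t y x z + hl a b c t y z x +
    hl a b c t z x y + hl a b c t z y x

theorem hl_aux {a b c : ℕ} {t x y z p : K} (hxy : x ≠ y) (hxz : x ≠ z) (hyz : y ≠ z)
    (h : x^a*y^b*z^c*(x-t*y)*(x-t*z)*(y-t*z) - x^a*z^b*y^c*(x-t*z)*(x-t*y)*(z-t*y)
      - y^a*x^b*z^c*(y-t*x)*(y-t*z)*(x-t*z) + y^a*z^b*x^c*(y-t*z)*(y-t*x)*(z-t*x)
      + z^a*x^b*y^c*(z-t*x)*(z-t*y)*(x-t*y) - z^a*y^b*x^c*(z-t*y)*(z-t*x)*(y-t*x)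
      = p * ((x-y)*(x-z)*(y-z))) : HL a b c t x y z = p := by
  have h1 : x - y ≠ 0 := sub_ne_zero.2 hxy
  have h2 : x - z ≠ 0 := sub_ne_zero.2 hxz
  have h3 : y - z ≠ 0 := sub_ne_zero.2 hyz
  have h4 : y - x ≠ 0 := sub_ne_zero.2 hxy.symm
  have h5 : z - x ≠ 0 := sub_ne_zero.2 hxz.symm
  have h6 : z - y ≠ 0 := sub_ne_zero.2 hyz.symm
  have e4 : y - x = -(x - y) := by ring
  have e5 : z - x = -(x - z) := by ring
  have e6 : z - y = -(y - z) := by ring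
  have key : HL a b c t x y z = (x^a*y^b*z^c*(x-t*y)*(x-t*z)*(y-t*z) - x^a*z^b*y^c*(x-t*z)*(x-t*y)*(z-t*y)
      - y^a*x^b*z^c*(y-t*x)*(y-t*z)*(x-t*z) + y^a*z^b*x^c*(y-t*z)*(y-t*x)*(z-t*x)
      + z^a*x^b*y^c*(z-t*x)*(z-t*y)*(x-t*y) - z^a*y^b*x^c*(z-t*y)*(z-t*x)*(y-t*x)) /
      ((x-y)*(x-z)*(y-z)) := by
    unfold HL hl
    rw [e4, e5, e6]
    field_simp
    ring
  rw [key, h]
  field_simp

theorem HL600 {t x y z : K} (hxy : x ≠ y) (hxz : x ≠ z) (hyz : y ≠ z) :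
    HL 6 0 0 t x y z = (1 + t) * (m600 x y z + (1 - t) * m510 x y z + (1 - t) * m420 x y z +
      (1 - t)^2 * m411 x y z + (1 - t) * m330 x y z + (1 - t)^2 * m321 x y z +
      (1 - t)^2 * m222 x y z) := by
  apply hl_aux hxy hxz hyz
  unfold m600 m510 m420 m411 m330 m321 m222
  ring

theorem HL510 {t x y z : K} (hxy : x ≠ y) (hxz : x ≠ z) (hyz : y ≠ z) :
    HL 5 1 0 t x y z = m510 x y z + (1 - t) * m420 x y z + 2 * (1 - t) * m411 x y z +
      (1 - t) * m330 x y z + (2 - 3*t + t^2) * m321 x y z + 2 * (1 - t)^2 * m222 x y z := by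
  apply hl_aux hxy hxz hyz
  unfold m510 m420 m411 m330 m321 m222
  ring

theorem HL420 {t x y z : K} (hxy : x ≠ y) (hxz : x ≠ z) (hyz : y ≠ z) :
    HL 4 2 0 t x y z = m420 x y z + (1 - t) * m411 x y z +
      (1 - t) * m330 x y z + (2 - 3*t + t^2) * m321 x y z +
      (3 - 4*t + 2*t^2 - t^3) * m222 x y z := by
  apply hl_aux hxy hxz hyz
  unfold m420 m411 m330 m321 m222
  ring

theorem HL411 {t x y z : K} (hxy : x ≠ y) (hxz : x ≠ z) (hyz : y ≠ z) :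
    HL 4 1 1 t x y z = (1 + t) * (m411 x y z + (1 - t) * m321 x y z + (1 - t)^2 * m222 x y z) := by
  apply hl_aux hxy hxz hyz
  unfold m411 m321 m222
  ring

theorem HL330 {t x y z : K} (hxy : x ≠ y) (hxz : x ≠ z) (hyz : y ≠ z) :
    HL 3 3 0 t x y z = (1 + t) * (m330 x y z + (1 - t) * m321 x y z + (1 - t)^2 * m222 x y z) := by
  apply hl_aux hxy hxz hyz
  unfold m330 m321 m222
  ring

theorem HL321 {t x y z : K} (hxy : x ≠ y) (hxz : x ≠ z) (hyz : y ≠ z) :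
    HL 3 2 1 t x y z = m321 x y z + (2 - t - t^2) * m222 x y z := by
  apply hl_aux hxy hxz hyz
  unfold m321 m222
  ring

theorem HL222 {t x y z : K} (hxy : x ≠ y) (hxz : x ≠ z) (hyz : y ≠ z) :
    HL 2 2 2 t x y z = ((1 + t) * (1 + t + t^2)) * m222 x y z := by
  apply hl_aux hxy hxz hyz
  unfold m222
  ring

end Pool.Agent.Q246.SK
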