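import Pool.Agent.Q246.SK.Defs
import Pool.Agent.Q246.SK.Field

set_option autoImplicit false

namespace Pool.Agent.Q246.SK

open Polynomial

theorem sum_perm3 {M : Type*} [AddCommMonoid M] (g : Fin 3 → Fin 3 → Fin 3 → M) :
    ∑ w : Equiv.Perm (Fin 3), g (w 0) (w 1) (w 2) =
      g 0 1 2 + g 0 2 1 + g 1 0 2 + g 1 2 0 + g 2 0 1 + g 2 1 0 := by
  have h : (Finset.univ : Finset (Equiv.Perm (Fin 3))) =
      {1, Equiv.swap 1 2, Equiv.swap 0 1, Equiv.swap 0 1 * Equiv.swap 1 2,
        Equiv.swap 1 2 * Equiv.swap 0 1, Equiv.swap 0 2} := by decide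
  rw [h]
  rw [Finset.sum_insert (by decide), Finset.sum_insert (by decide), Finset.sum_insert (by decide),
    Finset.sum_insert (by decide), Finset.sum_insert (by decide), Finset.sum_singleton]
  have e : ∀ (w : Equiv.Perm (Fin 3)) (a b c : Fin 3), w 0 = a → w 1 = b → w 2 = c →
      g (w 0) (w 1) (w 2) = g a b c := by
    rintro w a b c rfl rfl rfl
    rfl
  rw [e 1 0 1 2 (by decide) (by decide) (by decide),
    e (Equiv.swap 1 2) 0 2 1 (by decide) (by decide) (by decide),
    e (Equiv.swap 0 1) 1 0 2 (by decide) (by decide) (by decide),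
    e (Equiv.swap 0 1 * Equiv.swap 1 2) 1 2 0 (by decide) (by decide) (by decide),
    e (Equiv.swap 1 2 * Equiv.swap 0 1) 2 0 1 (by decide) (by decide) (by decide),
    e (Equiv.swap 0 2) 2 1 0 (by decide) (by decide) (by decide)]
  simp only [add_assoc]

theorem filt : (Finset.univ : Finset (Fin 3 × Fin 3)).filter (fun p => p.1 < p.2) =
    {(0, 1), (0, 2), (1, 2)} := by decide

theorem hallP3 (μ : Fin 3 → ℕ) : hallP μ =
    HL (μ 0) (μ 1) (μ 2) (c X) (x (0 : Fin 3)) (x 1) (x 2) / c (vPart μ) := by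
  have key : (∑ w : Equiv.Perm (Fin 3), (∏ i, (x (w i) : F 3) ^ μ i) *
      ∏ p ∈ (Finset.univ : Finset (Fin 3 × Fin 3)).filter (fun p => p.1 < p.2),
        (x (w p.1) - c X * x (w p.2)) / (x (w p.1) - x (w p.2))) =
      ∑ w : Equiv.Perm (Fin 3), hl (μ 0) (μ 1) (μ 2) (c X) (x (w 0) : F 3) (x (w 1)) (x (w 2)) := by
    refine Finset.sum_congr rfl fun w _ => ?_
    rw [filt, Finset.prod_insert (by decide), Finset.prod_insert (by decide),
      Finset.prod_singleton, Fin.prod_univ_three]
    unfold hl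
    ring
  unfold hallP
  rw [key, sum_perm3 (fun a b d => hl (μ 0) (μ 1) (μ 2) (c X) (x a : F 3) (x b) (x d))]
  unfold HL
  rfl

theorem x_inj {i j : Fin 3} (h : i ≠ j) : (x i : F 3) ≠ x j := by
  intro h1
  unfold x at h1
  have h2 := IsFractionRing.injective (MvPolynomial (Fin 3) ℤ[X]) (F 3) h1
  exact h (MvPolynomial.X_injective h2)

theorem c_ne {p : ℤ[X]} (h : p ≠ 0) : (c p : F 3) ≠ 0 := by
  unfold c
  intro h1
  apply h
  have h2 := (IsFractionRing.injective (MvPolynomial (Fin 3) ℤ[X]) (F 3))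
  rw [← map_zero (algebraMap (MvPolynomial (Fin 3) ℤ[X]) (F 3))] at h1
  have h3 := h2 h1
  rw [← map_zero (MvPolynomial.C (σ := Fin 3))] at h3
  exact MvPolynomial.C_injective _ _ h3

/-- `c` as a ring homomorphism -/
noncomputable def cHom : ℤ[X] →+* F 3 :=
  (algebraMap (MvPolynomial (Fin 3) ℤ[X]) (F 3)).comp MvPolynomial.C

theorem c_eq (p : ℤ[X]) : (c p : F 3) = cHom p := rfl

theorem v0 : v 0 = 1 := by simp [v]
theorem v1 : v 1 = 1 := by simp [v]
theorem v2 : v 2 = 1 + X := by simp [v, Finset.prod_range_succ, Finset.sum_range_succ]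
theorem v3 : v 3 = (1 + X) * (1 + X + X ^ 2) := by
  simp [v, Finset.prod_range_succ, Finset.sum_range_succ]

theorem vp600 : vPart ![6, 0, 0] = 1 + X := by
  have h : Finset.univ.image ![6, 0, 0] = {6, 0} := by decide
  have h1 : (Finset.univ.filter fun i => ![6, 0, 0] i = 6).card = 1 := by decide
  have h2 : (Finset.univ.filter fun i => ![6, 0, 0] i = 0).card = 2 := by decide
  unfold vPart
  rw [h, Finset.prod_insert (by decide), Finset.prod_singleton, h1, h2, v1, v2, one_mul]

theorem vp510 : vPart ![5, 1, 0] = 1 := by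
  have h : Finset.univ.image ![5, 1, 0] = {5, 1, 0} := by decide
  have h1 : (Finset.univ.filter fun i => ![5, 1, 0] i = 5).card = 1 := by decide
  have h2 : (Finset.univ.filter fun i => ![5, 1, 0] i = 1).card = 1 := by decide
  have h3 : (Finset.univ.filter fun i => ![5, 1, 0] i = 0).card = 1 := by decide
  unfold vPart
  rw [h, Finset.prod_insert (by decide), Finset.prod_insert (by decide), Finset.prod_singleton,
    h1, h2, h3, v1, one_mul, one_mul]

theorem vp420 : vPart ![4, 2, 0] = 1 := by
  have h : Finset.univ.image ![4, 2, 0] = {4, 2, 0} := by decide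
  have h1 : (Finset.univ.filter fun i => ![4, 2, 0] i = 4).card = 1 := by decide
  have h2 : (Finset.univ.filter fun i => ![4, 2, 0] i = 2).card = 1 := by decide
  have h3 : (Finset.univ.filter fun i => ![4, 2, 0] i = 0).card = 1 := by decide
  unfold vPart
  rw [h, Finset.prod_insert (by decide), Finset.prod_insert (by decide), Finset.prod_singleton,
    h1, h2, h3, v1, one_mul, one_mul]

theorem vp411 : vPart ![4, 1, 1] = 1 + X := by
  have h : Finset.univ.image ![4, 1, 1] = {4, 1} := by decide
  have h1 : (Finset.univ.filter fun i => ![4, 1, 1] i = 4).card = 1 := by decide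
  have h2 : (Finset.univ.filter fun i => ![4, 1, 1] i = 1).card = 2 := by decide
  unfold vPart
  rw [h, Finset.prod_insert (by decide), Finset.prod_singleton, h1, h2, v1, v2, one_mul]

theorem vp330 : vPart ![3, 3, 0] = 1 + X := by
  have h : Finset.univ.image ![3, 3, 0] = {3, 0} := by decide
  have h1 : (Finset.univ.filter fun i => ![3, 3, 0] i = 3).card = 2 := by decide
  have h2 : (Finset.univ.filter fun i => ![3, 3, 0] i = 0).card = 1 := by decide
  unfold vPart
  rw [h, Finset.prod_insert (by decide), Finset.prod_singleton, h1, h2, v1, v2, mul_one]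

theorem vp321 : vPart ![3, 2, 1] = 1 := by
  have h : Finset.univ.image ![3, 2, 1] = {3, 2, 1} := by decide
  have h1 : (Finset.univ.filter fun i => ![3, 2, 1] i = 3).card = 1 := by decide
  have h2 : (Finset.univ.filter fun i => ![3, 2, 1] i = 2).card = 1 := by decide
  have h3 : (Finset.univ.filter fun i => ![3, 2, 1] i = 1).card = 1 := by decide
  unfold vPart
  rw [h, Finset.prod_insert (by decide), Finset.prod_insert (by decide), Finset.prod_singleton,
    h1, h2, h3, v1, one_mul, one_mul]

theorem vp222 : vPart ![2, 2, 2] = (1 + X) * (1 + X + X ^ 2) := by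
  have h : Finset.univ.image ![2, 2, 2] = {2} := by decide
  have h1 : (Finset.univ.filter fun i => ![2, 2, 2] i = 2).card = 3 := by decide
  unfold vPart
  rw [h, Finset.prod_singleton, h1, v3]

end Pool.Agent.Q246.SK
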