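import Pool.Agent.Q246.SK.QVal
import Pool.Agent.Q246.SK.Hall

set_option autoImplicit false
set_option linter.unusedSimpArgs false

namespace Pool.Agent.Q246.SK

open Polynomial

abbrev A : Type := MvPolynomial (Fin 3) ℤ[X]

abbrev B : Type := Polynomial (Polynomial ℤ)

noncomputable def ι : A →+* F 3 := algebraMap A (F 3)

theorem ι_inj : Function.Injective ι := IsFractionRing.injective A (F 3)

noncomputable def φ : A →+* B :=
  MvPolynomial.eval₂Hom Polynomial.C (![X ^ 49, X ^ 7, 1] : Fin 3 → B)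

noncomputable def x0 : A := MvPolynomial.X 0
noncomputable def x1 : A := MvPolynomial.X 1
noncomputable def x2 : A := MvPolynomial.X 2

theorem ι0 : ι x0 = x 0 := rfl
theorem ι1 : ι x1 = x 1 := rfl
theorem ι2 : ι x2 = x 2 := rfl
theorem ιC (p : ℤ[X]) : ι (MvPolynomial.C p) = c p := rfl

theorem φ0 : φ x0 = X ^ 49 := by
  unfold φ x0; simp
theorem φ1 : φ x1 = X ^ 7 := by
  unfold φ x1; simp
theorem φ2 : φ x2 = 1 := by
  unfold φ x2; simp
theorem φC (p : ℤ[X]) : φ (MvPolynomial.C p) = Polynomial.C p := by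
  unfold φ; simp

section
variable {R S : Type*} [CommRing R] [CommRing S] (f : R →+* S) (a b d : R)
theorem map600 : f (m600 a b d) = m600 (f a) (f b) (f d) := by simp [m600]
theorem map510 : f (m510 a b d) = m510 (f a) (f b) (f d) := by simp [m510]
theorem map420 : f (m420 a b d) = m420 (f a) (f b) (f d) := by simp [m420]
theorem map411 : f (m411 a b d) = m411 (f a) (f b) (f d) := by simp [m411]
theorem map330 : f (m330 a b d) = m330 (f a) (f b) (f d) := by simp [m330]
theorem map321 : f (m321 a b d) = m321 (f a) (f b) (f d) := by simp [m321]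
theorem map222 : f (m222 a b d) = m222 (f a) (f b) (f d) := by simp [m222]
end

noncomputable def p600 : A := m600 x0 x1 x2 + MvPolynomial.C (1 - X) * m510 x0 x1 x2 + MvPolynomial.C (1 - X) * m420 x0 x1 x2 + MvPolynomial.C ((1 - X)^2) * m411 x0 x1 x2 + MvPolynomial.C (1 - X) * m330 x0 x1 x2 + MvPolynomial.C ((1 - X)^2) * m321 x0 x1 x2 + MvPolynomial.C ((1 - X)^2) * m222 x0 x1 x2

noncomputable def p510 : A := m510 x0 x1 x2 + MvPolynomial.C (1 - X) * m420 x0 x1 x2 + MvPolynomial.C (2 * (1 - X)) * m411 x0 x1 x2 + MvPolynomial.C (1 - X) * m330 x0 x1 x2 + MvPolynomial.C (2 - 3 * X + X^2) * m321 x0 x1 x2 + MvPolynomial.C (2 * (1 - X)^2) * m222 x0 x1 x2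

noncomputable def p420 : A := m420 x0 x1 x2 + MvPolynomial.C (1 - X) * m411 x0 x1 x2 + MvPolynomial.C (1 - X) * m330 x0 x1 x2 + MvPolynomial.C (2 - 3 * X + X^2) * m321 x0 x1 x2 + MvPolynomial.C (3 - 4 * X + 2 * X^2 - X^3) * m222 x0 x1 x2

noncomputable def p411 : A := m411 x0 x1 x2 + MvPolynomial.C (1 - X) * m321 x0 x1 x2 + MvPolynomial.C ((1 - X)^2) * m222 x0 x1 x2

noncomputable def p330 : A := m330 x0 x1 x2 + MvPolynomial.C (1 - X) * m321 x0 x1 x2 + MvPolynomial.C ((1 - X)^2) * m222 x0 x1 x2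

noncomputable def p321 : A := m321 x0 x1 x2 + MvPolynomial.C (2 - X - X^2) * m222 x0 x1 x2

noncomputable def p222 : A := m222 x0 x1 x2

theorem one_add_ne : (1 + X : ℤ[X]) ≠ 0 := by
  intro h
  have := congrArg (Polynomial.eval 0) h
  simp at this

theorem three_ne : ((1 + X) * (1 + X + X ^ 2) : ℤ[X]) ≠ 0 := by
  intro h
  have := congrArg (Polynomial.eval 0) h
  simp at this

theorem h600 : hallP ![6, 0, 0] = ι p600 := by
  rw [hallP3, vp600]
  show HL 6 0 0 (c X) (x 0 : F 3) (x 1) (x 2) / c (1 + X) = _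
  rw [HL600 (x_inj (by decide)) (x_inj (by decide)) (x_inj (by decide))]
  rw [div_eq_iff (c_ne one_add_ne)]
  unfold p600
  simp only [map_add, map_mul, map600, map510, map420, map411, map330, map321, map222, ι0, ι1, ι2,
    ιC, c_eq, map_sub, map_one, map_pow, map_ofNat]
  ring

theorem h510 : hallP ![5, 1, 0] = ι p510 := by
  rw [hallP3, vp510]
  show HL 5 1 0 (c X) (x 0 : F 3) (x 1) (x 2) / c 1 = _
  rw [HL510 (x_inj (by decide)) (x_inj (by decide)) (x_inj (by decide))]
  unfold p510
  simp only [map_add, map_mul, map600, map510, map420, map411, map330, map321, map222, ι0, ι1, ι2,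
    ιC, c_eq, map_sub, map_one, map_pow, map_ofNat, div_one]

theorem h420 : hallP ![4, 2, 0] = ι p420 := by
  rw [hallP3, vp420]
  show HL 4 2 0 (c X) (x 0 : F 3) (x 1) (x 2) / c 1 = _
  rw [HL420 (x_inj (by decide)) (x_inj (by decide)) (x_inj (by decide))]
  unfold p420
  simp only [map_add, map_mul, map600, map510, map420, map411, map330, map321, map222, ι0, ι1, ι2,
    ιC, c_eq, map_sub, map_one, map_pow, map_ofNat, div_one]

theorem h411 : hallP ![4, 1, 1] = ι p411 := by
  rw [hallP3, vp411]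
  show HL 4 1 1 (c X) (x 0 : F 3) (x 1) (x 2) / c (1 + X) = _
  rw [HL411 (x_inj (by decide)) (x_inj (by decide)) (x_inj (by decide))]
  rw [div_eq_iff (c_ne one_add_ne)]
  unfold p411
  simp only [map_add, map_mul, map600, map510, map420, map411, map330, map321, map222, ι0, ι1, ι2,
    ιC, c_eq, map_sub, map_one, map_pow, map_ofNat]
  ring

theorem h330 : hallP ![3, 3, 0] = ι p330 := by
  rw [hallP3, vp330]
  show HL 3 3 0 (c X) (x 0 : F 3) (x 1) (x 2) / c (1 + X) = _
  rw [HL330 (x_inj (by decide)) (x_inj (by decide)) (x_inj (by decide))]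
  rw [div_eq_iff (c_ne one_add_ne)]
  unfold p330
  simp only [map_add, map_mul, map600, map510, map420, map411, map330, map321, map222, ι0, ι1, ι2,
    ιC, c_eq, map_sub, map_one, map_pow, map_ofNat]
  ring

theorem h321 : hallP ![3, 2, 1] = ι p321 := by
  rw [hallP3, vp321]
  show HL 3 2 1 (c X) (x 0 : F 3) (x 1) (x 2) / c 1 = _
  rw [HL321 (x_inj (by decide)) (x_inj (by decide)) (x_inj (by decide))]
  unfold p321
  simp only [map_add, map_mul, map600, map510, map420, map411, map330, map321, map222, ι0, ι1, ι2,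
    ιC, c_eq, map_sub, map_one, map_pow, map_ofNat, div_one]

theorem h222 : hallP ![2, 2, 2] = ι p222 := by
  rw [hallP3, vp222]
  show HL 2 2 2 (c X) (x 0 : F 3) (x 1) (x 2) / c ((1 + X) * (1 + X + X ^ 2)) = _
  rw [HL222 (x_inj (by decide)) (x_inj (by decide)) (x_inj (by decide))]
  rw [div_eq_iff (c_ne three_ne)]
  unfold p222
  simp only [map_add, map_mul, map600, map510, map420, map411, map330, map321, map222, ι0, ι1, ι2,
    ιC, c_eq, map_sub, map_one, map_pow, map_ofNat]
  ring

theorem e600_600 : (m600 (X ^ 49) (X ^ 7) (1 : B)).coeff 294 = 1 := by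
  unfold m600
  simp only [← pow_mul, ← pow_add, one_pow, mul_one, one_mul, coeff_add, coeff_X_pow, coeff_one]
  norm_num

theorem e600_510 : (m600 (X ^ 49) (X ^ 7) (1 : B)).coeff 252 = 0 := by
  unfold m600
  simp only [← pow_mul, ← pow_add, one_pow, mul_one, one_mul, coeff_add, coeff_X_pow, coeff_one]
  norm_num

theorem e600_420 : (m600 (X ^ 49) (X ^ 7) (1 : B)).coeff 210 = 0 := by
  unfold m600
  simp only [← pow_mul, ← pow_add, one_pow, mul_one, one_mul, coeff_add, coeff_X_pow, coeff_one]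
  norm_num

theorem e600_411 : (m600 (X ^ 49) (X ^ 7) (1 : B)).coeff 203 = 0 := by
  unfold m600
  simp only [← pow_mul, ← pow_add, one_pow, mul_one, one_mul, coeff_add, coeff_X_pow, coeff_one]
  norm_num

theorem e600_330 : (m600 (X ^ 49) (X ^ 7) (1 : B)).coeff 168 = 0 := by
  unfold m600
  simp only [← pow_mul, ← pow_add, one_pow, mul_one, one_mul, coeff_add, coeff_X_pow, coeff_one]
  norm_num

theorem e600_321 : (m600 (X ^ 49) (X ^ 7) (1 : B)).coeff 161 = 0 := by
  unfold m600
  simp only [← pow_mul, ← pow_add, one_pow, mul_one, one_mul, coeff_add, coeff_X_pow, coeff_one]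
  norm_num

theorem e600_222 : (m600 (X ^ 49) (X ^ 7) (1 : B)).coeff 112 = 0 := by
  unfold m600
  simp only [← pow_mul, ← pow_add, one_pow, mul_one, one_mul, coeff_add, coeff_X_pow, coeff_one]
  norm_num

theorem e510_600 : (m510 (X ^ 49) (X ^ 7) (1 : B)).coeff 294 = 0 := by
  unfold m510
  simp only [← pow_mul, ← pow_add, one_pow, mul_one, one_mul, coeff_add, coeff_X_pow, coeff_one]
  norm_num

theorem e510_510 : (m510 (X ^ 49) (X ^ 7) (1 : B)).coeff 252 = 1 := by
  unfold m510
  simp only [← pow_mul, ← pow_add, one_pow, mul_one, one_mul, coeff_add, coeff_X_pow, coeff_one]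
  norm_num

theorem e510_420 : (m510 (X ^ 49) (X ^ 7) (1 : B)).coeff 210 = 0 := by
  unfold m510
  simp only [← pow_mul, ← pow_add, one_pow, mul_one, one_mul, coeff_add, coeff_X_pow, coeff_one]
  norm_num

theorem e510_411 : (m510 (X ^ 49) (X ^ 7) (1 : B)).coeff 203 = 0 := by
  unfold m510
  simp only [← pow_mul, ← pow_add, one_pow, mul_one, one_mul, coeff_add, coeff_X_pow, coeff_one]
  norm_num

theorem e510_330 : (m510 (X ^ 49) (X ^ 7) (1 : B)).coeff 168 = 0 := by
  unfold m510
  simp only [← pow_mul, ← pow_add, one_pow, mul_one, one_mul, coeff_add, coeff_X_pow, coeff_one]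
  norm_num

theorem e510_321 : (m510 (X ^ 49) (X ^ 7) (1 : B)).coeff 161 = 0 := by
  unfold m510
  simp only [← pow_mul, ← pow_add, one_pow, mul_one, one_mul, coeff_add, coeff_X_pow, coeff_one]
  norm_num

theorem e510_222 : (m510 (X ^ 49) (X ^ 7) (1 : B)).coeff 112 = 0 := by
  unfold m510
  simp only [← pow_mul, ← pow_add, one_pow, mul_one, one_mul, coeff_add, coeff_X_pow, coeff_one]
  norm_num

theorem e420_600 : (m420 (X ^ 49) (X ^ 7) (1 : B)).coeff 294 = 0 := by
  unfold m420
  simp only [← pow_mul, ← pow_add, one_pow, mul_one, one_mul, coeff_add, coeff_X_pow, coeff_one]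
  norm_num

theorem e420_510 : (m420 (X ^ 49) (X ^ 7) (1 : B)).coeff 252 = 0 := by
  unfold m420
  simp only [← pow_mul, ← pow_add, one_pow, mul_one, one_mul, coeff_add, coeff_X_pow, coeff_one]
  norm_num

theorem e420_420 : (m420 (X ^ 49) (X ^ 7) (1 : B)).coeff 210 = 1 := by
  unfold m420
  simp only [← pow_mul, ← pow_add, one_pow, mul_one, one_mul, coeff_add, coeff_X_pow, coeff_one]
  norm_num

theorem e420_411 : (m420 (X ^ 49) (X ^ 7) (1 : B)).coeff 203 = 0 := by
  unfold m420
  simp only [← pow_mul, ← pow_add, one_pow, mul_one, one_mul, coeff_add, coeff_X_pow, coeff_one]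
  norm_num

theorem e420_330 : (m420 (X ^ 49) (X ^ 7) (1 : B)).coeff 168 = 0 := by
  unfold m420
  simp only [← pow_mul, ← pow_add, one_pow, mul_one, one_mul, coeff_add, coeff_X_pow, coeff_one]
  norm_num

theorem e420_321 : (m420 (X ^ 49) (X ^ 7) (1 : B)).coeff 161 = 0 := by
  unfold m420
  simp only [← pow_mul, ← pow_add, one_pow, mul_one, one_mul, coeff_add, coeff_X_pow, coeff_one]
  norm_num

theorem e420_222 : (m420 (X ^ 49) (X ^ 7) (1 : B)).coeff 112 = 0 := by
  unfold m420
  simp only [← pow_mul, ← pow_add, one_pow, mul_one, one_mul, coeff_add, coeff_X_pow, coeff_one]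
  norm_num

theorem e411_600 : (m411 (X ^ 49) (X ^ 7) (1 : B)).coeff 294 = 0 := by
  unfold m411
  simp only [← pow_mul, ← pow_add, one_pow, mul_one, one_mul, coeff_add, coeff_X_pow, coeff_one]
  norm_num

theorem e411_510 : (m411 (X ^ 49) (X ^ 7) (1 : B)).coeff 252 = 0 := by
  unfold m411
  simp only [← pow_mul, ← pow_add, one_pow, mul_one, one_mul, coeff_add, coeff_X_pow, coeff_one]
  norm_num

theorem e411_420 : (m411 (X ^ 49) (X ^ 7) (1 : B)).coeff 210 = 0 := by
  unfold m411
  simp only [← pow_mul, ← pow_add, one_pow, mul_one, one_mul, coeff_add, coeff_X_pow, coeff_one]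
  norm_num

theorem e411_411 : (m411 (X ^ 49) (X ^ 7) (1 : B)).coeff 203 = 1 := by
  unfold m411
  simp only [← pow_mul, ← pow_add, one_pow, mul_one, one_mul, coeff_add, coeff_X_pow, coeff_one]
  norm_num

theorem e411_330 : (m411 (X ^ 49) (X ^ 7) (1 : B)).coeff 168 = 0 := by
  unfold m411
  simp only [← pow_mul, ← pow_add, one_pow, mul_one, one_mul, coeff_add, coeff_X_pow, coeff_one]
  norm_num

theorem e411_321 : (m411 (X ^ 49) (X ^ 7) (1 : B)).coeff 161 = 0 := by
  unfold m411
  simp only [← pow_mul, ← pow_add, one_pow, mul_one, one_mul, coeff_add, coeff_X_pow, coeff_one]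
  norm_num

theorem e411_222 : (m411 (X ^ 49) (X ^ 7) (1 : B)).coeff 112 = 0 := by
  unfold m411
  simp only [← pow_mul, ← pow_add, one_pow, mul_one, one_mul, coeff_add, coeff_X_pow, coeff_one]
  norm_num

theorem e330_600 : (m330 (X ^ 49) (X ^ 7) (1 : B)).coeff 294 = 0 := by
  unfold m330
  simp only [← pow_mul, ← pow_add, one_pow, mul_one, one_mul, coeff_add, coeff_X_pow, coeff_one]
  norm_num

theorem e330_510 : (m330 (X ^ 49) (X ^ 7) (1 : B)).coeff 252 = 0 := by
  unfold m330
  simp only [← pow_mul, ← pow_add, one_pow, mul_one, one_mul, coeff_add, coeff_X_pow, coeff_one]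
  norm_num

theorem e330_420 : (m330 (X ^ 49) (X ^ 7) (1 : B)).coeff 210 = 0 := by
  unfold m330
  simp only [← pow_mul, ← pow_add, one_pow, mul_one, one_mul, coeff_add, coeff_X_pow, coeff_one]
  norm_num

theorem e330_411 : (m330 (X ^ 49) (X ^ 7) (1 : B)).coeff 203 = 0 := by
  unfold m330
  simp only [← pow_mul, ← pow_add, one_pow, mul_one, one_mul, coeff_add, coeff_X_pow, coeff_one]
  norm_num

theorem e330_330 : (m330 (X ^ 49) (X ^ 7) (1 : B)).coeff 168 = 1 := by
  unfold m330
  simp only [← pow_mul, ← pow_add, one_pow, mul_one, one_mul, coeff_add, coeff_X_pow, coeff_one]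
  norm_num

theorem e330_321 : (m330 (X ^ 49) (X ^ 7) (1 : B)).coeff 161 = 0 := by
  unfold m330
  simp only [← pow_mul, ← pow_add, one_pow, mul_one, one_mul, coeff_add, coeff_X_pow, coeff_one]
  norm_num

theorem e330_222 : (m330 (X ^ 49) (X ^ 7) (1 : B)).coeff 112 = 0 := by
  unfold m330
  simp only [← pow_mul, ← pow_add, one_pow, mul_one, one_mul, coeff_add, coeff_X_pow, coeff_one]
  norm_num

theorem e321_600 : (m321 (X ^ 49) (X ^ 7) (1 : B)).coeff 294 = 0 := by
  unfold m321
  simp only [← pow_mul, ← pow_add, one_pow, mul_one, one_mul, coeff_add, coeff_X_pow, coeff_one]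
  norm_num

theorem e321_510 : (m321 (X ^ 49) (X ^ 7) (1 : B)).coeff 252 = 0 := by
  unfold m321
  simp only [← pow_mul, ← pow_add, one_pow, mul_one, one_mul, coeff_add, coeff_X_pow, coeff_one]
  norm_num

theorem e321_420 : (m321 (X ^ 49) (X ^ 7) (1 : B)).coeff 210 = 0 := by
  unfold m321
  simp only [← pow_mul, ← pow_add, one_pow, mul_one, one_mul, coeff_add, coeff_X_pow, coeff_one]
  norm_num

theorem e321_411 : (m321 (X ^ 49) (X ^ 7) (1 : B)).coeff 203 = 0 := by
  unfold m321
  simp only [← pow_mul, ← pow_add, one_pow, mul_one, one_mul, coeff_add, coeff_X_pow, coeff_one]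
  norm_num

theorem e321_330 : (m321 (X ^ 49) (X ^ 7) (1 : B)).coeff 168 = 0 := by
  unfold m321
  simp only [← pow_mul, ← pow_add, one_pow, mul_one, one_mul, coeff_add, coeff_X_pow, coeff_one]
  norm_num

theorem e321_321 : (m321 (X ^ 49) (X ^ 7) (1 : B)).coeff 161 = 1 := by
  unfold m321
  simp only [← pow_mul, ← pow_add, one_pow, mul_one, one_mul, coeff_add, coeff_X_pow, coeff_one]
  norm_num

theorem e321_222 : (m321 (X ^ 49) (X ^ 7) (1 : B)).coeff 112 = 0 := by
  unfold m321
  simp only [← pow_mul, ← pow_add, one_pow, mul_one, one_mul, coeff_add, coeff_X_pow, coeff_one]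
  norm_num

theorem e222_600 : (m222 (X ^ 49) (X ^ 7) (1 : B)).coeff 294 = 0 := by
  unfold m222
  simp only [← pow_mul, ← pow_add, one_pow, mul_one, one_mul, coeff_add, coeff_X_pow, coeff_one]
  norm_num

theorem e222_510 : (m222 (X ^ 49) (X ^ 7) (1 : B)).coeff 252 = 0 := by
  unfold m222
  simp only [← pow_mul, ← pow_add, one_pow, mul_one, one_mul, coeff_add, coeff_X_pow, coeff_one]
  norm_num

theorem e222_420 : (m222 (X ^ 49) (X ^ 7) (1 : B)).coeff 210 = 0 := by
  unfold m222
  simp only [← pow_mul, ← pow_add, one_pow, mul_one, one_mul, coeff_add, coeff_X_pow, coeff_one]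
  norm_num

theorem e222_411 : (m222 (X ^ 49) (X ^ 7) (1 : B)).coeff 203 = 0 := by
  unfold m222
  simp only [← pow_mul, ← pow_add, one_pow, mul_one, one_mul, coeff_add, coeff_X_pow, coeff_one]
  norm_num

theorem e222_330 : (m222 (X ^ 49) (X ^ 7) (1 : B)).coeff 168 = 0 := by
  unfold m222
  simp only [← pow_mul, ← pow_add, one_pow, mul_one, one_mul, coeff_add, coeff_X_pow, coeff_one]
  norm_num

theorem e222_321 : (m222 (X ^ 49) (X ^ 7) (1 : B)).coeff 161 = 0 := by
  unfold m222
  simp only [← pow_mul, ← pow_add, one_pow, mul_one, one_mul, coeff_add, coeff_X_pow, coeff_one]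
  norm_num

theorem e222_222 : (m222 (X ^ 49) (X ^ 7) (1 : B)).coeff 112 = 1 := by
  unfold m222
  simp only [← pow_mul, ← pow_add, one_pow, mul_one, one_mul, coeff_add, coeff_X_pow, coeff_one]
  norm_num

end Pool.Agent.Q246.SK
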