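import Pool.Agent.Q246.SK.Lin

set_option autoImplicit false
set_option linter.unusedSimpArgs false

namespace Pool.Agent.Q246.SK

open Polynomial

theorem parts36 : parts 3 6 = {![6, 0, 0], ![5, 1, 0], ![4, 2, 0], ![4, 1, 1], ![3, 3, 0],
    ![3, 2, 1], ![2, 2, 2]} := by
  decide +kernel

theorem sum_parts {M : Type*} [AddCommMonoid M] (g : (Fin 3 → ℕ) → M) :
    ∑ μ ∈ parts 3 6, g μ = g ![6, 0, 0] + (g ![5, 1, 0] + (g ![4, 2, 0] + (g ![4, 1, 1] +
      (g ![3, 3, 0] + (g ![3, 2, 1] + g ![2, 2, 2]))))) := by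
  rw [parts36]
  rw [Finset.sum_insert (by decide), Finset.sum_insert (by decide), Finset.sum_insert (by decide),
    Finset.sum_insert (by decide), Finset.sum_insert (by decide), Finset.sum_insert (by decide),
    Finset.sum_singleton]

noncomputable def q42 : A := 4 * m420 x0 x1 x2 + 8 * m411 x0 x1 x2 + 8 * m330 x0 x1 x2 +
  24 * m321 x0 x1 x2 + 40 * m222 x0 x1 x2

theorem schur_ι : schurQ [4, 2] 3 = ι q42 := by
  rw [schurQ_val]
  unfold q42
  simp only [map_add, map_mul, map420, map411, map330, map321, map222, ι0, ι1, ι2, map_ofNat]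

/-- the linear system -/
theorem solve {k6 k51 k42 k411 k33 k321 k222 : ℤ[X]}
    (h : c k6 * hallP ![6, 0, 0] + (c k51 * hallP ![5, 1, 0] + (c k42 * hallP ![4, 2, 0] +
      (c k411 * hallP ![4, 1, 1] + (c k33 * hallP ![3, 3, 0] + (c k321 * hallP ![3, 2, 1] +
      c k222 * hallP ![2, 2, 2]))))) = schurQ [4, 2] 3) :
    k6 = 0 ∧ k51 = 0 ∧ k42 = 4 ∧ k411 = 4 + 4 * X ∧ k33 = 4 + 4 * X ∧
      k321 = 8 + 12 * X + 4 * X ^ 2 := by
  rw [h600, h510, h420, h411, h330, h321, h222, schur_ι] at h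
  simp only [← ιC] at h
  simp only [← map_mul, ← map_add] at h
  have h1 := congrArg φ (ι_inj h)
  unfold p600 p510 p420 p411 p330 p321 p222 q42 at h1
  simp only [map_add, map_mul, map600, map510, map420, map411, map330, map321, map222, φ0, φ1, φ2,
    φC, map_ofNat] at h1
  have e2 : (2 : B) = C 2 := (map_ofNat (C : ℤ[X] →+* B) 2).symm
  have e4 : (4 : B) = C 4 := (map_ofNat (C : ℤ[X] →+* B) 4).symm
  have e8 : (8 : B) = C 8 := (map_ofNat (C : ℤ[X] →+* B) 8).symm
  have e24 : (24 : B) = C 24 := (map_ofNat (C : ℤ[X] →+* B) 24).symm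
  have e40 : (40 : B) = C 40 := (map_ofNat (C : ℤ[X] →+* B) 40).symm
  rw [e2, e4, e8, e24, e40] at h1
  simp only [← C_mul, ← C_add] at h1
  have c294 := congrArg (fun f : B => f.coeff 294) h1
  have c252 := congrArg (fun f : B => f.coeff 252) h1
  have c210 := congrArg (fun f : B => f.coeff 210) h1
  have c203 := congrArg (fun f : B => f.coeff 203) h1
  have c168 := congrArg (fun f : B => f.coeff 168) h1
  have c161 := congrArg (fun f : B => f.coeff 161) h1
  simp only [coeff_add, coeff_C_mul, e600_600, e510_600, e420_600, e411_600, e330_600, e321_600,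
    e222_600] at c294
  simp only [coeff_add, coeff_C_mul, e600_510, e510_510, e420_510, e411_510, e330_510, e321_510,
    e222_510] at c252
  simp only [coeff_add, coeff_C_mul, e600_420, e510_420, e420_420, e411_420, e330_420, e321_420,
    e222_420] at c210
  simp only [coeff_add, coeff_C_mul, e600_411, e510_411, e420_411, e411_411, e330_411, e321_411,
    e222_411] at c203
  simp only [coeff_add, coeff_C_mul, e600_330, e510_330, e420_330, e411_330, e330_330, e321_330,
    e222_330] at c168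
  simp only [coeff_add, coeff_C_mul, e600_321, e510_321, e420_321, e411_321, e330_321, e321_321,
    e222_321] at c161
  have g6 : k6 = 0 := by linear_combination c294
  have g51 : k51 = 0 := by linear_combination c252 - (1 - X) * g6
  have g42 : k42 = 4 := by linear_combination c210 - (1 - X) * g6 - (1 - X) * g51
  have g411 : k411 = 4 + 4 * X := by
    linear_combination c203 - (1 - X) ^ 2 * g6 - 2 * (1 - X) * g51 - (1 - X) * g42
  have g33 : k33 = 4 + 4 * X := by
    linear_combination c168 - (1 - X) * g6 - (1 - X) * g51 - (1 - X) * g42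
  have g321 : k321 = 8 + 12 * X + 4 * X ^ 2 := by
    linear_combination c161 - (1 - X) ^ 2 * g6 - (2 - 3 * X + X ^ 2) * g51
      - (2 - 3 * X + X ^ 2) * g42 - (1 - X) * g411 - (1 - X) * g33
  exact ⟨g6, g51, g42, g411, g33, g321⟩

theorem exp_key : MvPolynomial.C 4 * p420 + MvPolynomial.C (4 + 4 * X) * p411 +
    MvPolynomial.C (4 + 4 * X) * p330 + MvPolynomial.C (8 + 12 * X + 4 * X ^ 2) * p321 +
    MvPolynomial.C (4 + 8 * X + 12 * X ^ 2 + 12 * X ^ 3 + 4 * X ^ 4) * p222 = q42 := by
  unfold p420 p411 p330 p321 p222 q42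
  generalize m420 x0 x1 x2 = a1
  generalize m411 x0 x1 x2 = a2
  generalize m330 x0 x1 x2 = a3
  generalize m321 x0 x1 x2 = a4
  generalize m222 x0 x1 x2 = a5
  simp only [map_add, map_mul, map_sub, map_pow, map_one, map_ofNat]
  generalize MvPolynomial.C (σ := Fin 3) (X : ℤ[X]) = t
  ring

theorem exists_exp : c 4 * hallP ![4, 2, 0] + c (4 + 4 * X) * hallP ![4, 1, 1] +
    c (4 + 4 * X) * hallP ![3, 3, 0] + c (8 + 12 * X + 4 * X ^ 2) * hallP ![3, 2, 1] +
    c (4 + 8 * X + 12 * X ^ 2 + 12 * X ^ 3 + 4 * X ^ 4) * hallP ![2, 2, 2] = schurQ [4, 2] 3 := by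
  rw [h420, h411, h330, h321, h222, schur_ι, ← ιC, ← ιC, ← ιC, ← ιC, ← map_mul, ← map_mul,
    ← map_mul, ← map_mul, ← map_mul, ← map_add, ← map_add, ← map_add, ← map_add]
  exact congrArg ι exp_key

theorem c_T_coeff (a : ℤ) (n k : ℤ) : (LaurentPolynomial.C a * LaurentPolynomial.T n).coeff k =
    if n = k then a else 0 := by
  rw [← LaurentPolynomial.single_eq_C_mul_T, AddMonoidAlgebra.coeff_single, Finsupp.single_apply]

/-- `8 + 12 t + 4 t²` is not palindromic. -/
theorem not_pal : ¬ Palindromic (8 + 12 * X + 4 * X ^ 2) := by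
  rintro ⟨m, hm⟩
  have e : (8 + 12 * X + 4 * X ^ 2 : ℤ[X]) = C 8 * X ^ 0 + C 12 * X ^ 1 + C 4 * X ^ 2 := by
    simp
  rw [e] at hm
  simp only [map_add, map_mul, Polynomial.toLaurent_X_pow, Polynomial.toLaurent_C,
    LaurentPolynomial.invert_C, LaurentPolynomial.invert_T, mul_add] at hm
  have key : ∀ (a n : ℤ), (LaurentPolynomial.T m : LaurentPolynomial ℤ) *
      (LaurentPolynomial.C a * LaurentPolynomial.T n) =
      LaurentPolynomial.C a * LaurentPolynomial.T (m + n) := by
    intro a n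
    rw [LaurentPolynomial.T_add]
    ring
  rw [key, key, key] at hm
  have h0 := congrArg (fun f : LaurentPolynomial ℤ => f.coeff 0) hm
  have h1 := congrArg (fun f : LaurentPolynomial ℤ => f.coeff 1) hm
  simp only [AddMonoidAlgebra.coeff_add, Finsupp.add_apply, c_T_coeff] at h0 h1
  norm_num at h0 h1
  split_ifs at h0 h1 <;> omega

end Pool.Agent.Q246.SK
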