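import Pool.Agent.Q246.SK.Defs
import Pool.Agent.Q246.SK.Field

set_option autoImplicit false

namespace Pool.Agent.Q246.SK

open Polynomial

abbrev L : Type := Fin (2 * 3)

abbrev Tb : Type := (i : Fin ([4, 2] : List ℕ).length) → Fin (([4, 2] : List ℕ).get i) → Fin (2 * 3)

def mk (a b c d e f : L) : Tb := fun i => match i with
  | ⟨0, _⟩ => fun k => (![a, b, c, d] : Fin 4 → L) k
  | ⟨1, _⟩ => fun k => (![e, f] : Fin 2 → L) k

def eqv : Tb ≃ L × L × L × L × L × L where
  toFun T := (T ⟨0, by decide⟩ ⟨1, by decide⟩, T ⟨0, by decide⟩ ⟨2, by decide⟩,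
    T ⟨0, by decide⟩ ⟨0, by decide⟩, T ⟨0, by decide⟩ ⟨3, by decide⟩,
    T ⟨1, by decide⟩ ⟨0, by decide⟩, T ⟨1, by decide⟩ ⟨1, by decide⟩)
  invFun p := mk p.2.2.1 p.1 p.2.1 p.2.2.2.1 p.2.2.2.2.1 p.2.2.2.2.2
  left_inv T := by
    funext i k
    match i, k with
    | ⟨0, _⟩, ⟨0, _⟩ => rfl
    | ⟨0, _⟩, ⟨1, _⟩ => rfl
    | ⟨0, _⟩, ⟨2, _⟩ => rfl
    | ⟨0, _⟩, ⟨3, _⟩ => rfl
    | ⟨1, _⟩, ⟨0, _⟩ => rfl
    | ⟨1, _⟩, ⟨1, _⟩ => rfl
  right_inv p := rfl

/-- neighbours in a row -/
def Row (a b : L) : Prop := a < b ∨ (a = b ∧ ¬ Even (a : ℕ))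

/-- neighbours in a column -/
def Col (a b : L) : Prop := a < b ∨ (a = b ∧ Even (a : ℕ))

instance (a b : L) : Decidable (Row a b) := by unfold Row; infer_instance
instance (a b : L) : Decidable (Col a b) := by unfold Col; infer_instance

theorem row_iff (a b : L) : Row a b ↔ (a ≤ b ∧ (a = b → ¬ Even (a : ℕ))) := by
  revert a b; decide

theorem col_iff (a b : L) : Col a b ↔ (a ≤ b ∧ (a = b → Even (a : ℕ))) := by
  revert a b; decide

theorem row_trans (a b c : L) (h : Row a b) (h' : Row b c) : Row a c := by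
  revert a b c; decide

theorem col_trans (a b c : L) (h : Col a b) (h' : Col b c) : Col a c := by
  revert a b c; decide

theorem isTab_mk (a b c d e f : L) : IsTab (mk a b c d e f) ↔
    Row b c ∧ Row a b ∧ Row c d ∧ Row e f ∧ Col b e ∧ Col c f := by
  constructor
  · rintro ⟨h1, h2⟩
    have k1 := h1 ⟨0, by decide⟩ ⟨1, by decide⟩ ⟨2, by decide⟩ (by decide)
    have k2 := h1 ⟨0, by decide⟩ ⟨0, by decide⟩ ⟨1, by decide⟩ (by decide)
    have k3 := h1 ⟨0, by decide⟩ ⟨2, by decide⟩ ⟨3, by decide⟩ (by decide)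
    have k4 := h1 ⟨1, by decide⟩ ⟨0, by decide⟩ ⟨1, by decide⟩ (by decide)
    have k5 := h2 ⟨0, by decide⟩ ⟨1, by decide⟩ ⟨1, by decide⟩ ⟨0, by decide⟩
        (by decide) (by decide)
    have k6 := h2 ⟨0, by decide⟩ ⟨1, by decide⟩ ⟨2, by decide⟩ ⟨1, by decide⟩
        (by decide) (by decide)
    exact ⟨(row_iff b c).2 k1, (row_iff a b).2 k2, (row_iff c d).2 k3, (row_iff e f).2 k4,
      (col_iff b e).2 k5, (col_iff c f).2 k6⟩
  · rintro ⟨hbc, hab, hcd, hef, hbe, hcf⟩
    have hac := row_trans _ _ _ hab hbc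
    have hbd := row_trans _ _ _ hbc hcd
    have had := row_trans _ _ _ hac hcd
    constructor
    · intro i k k' hk
      rcases i with ⟨i, hi⟩
      have hi' : i = 0 ∨ i = 1 := by
        change i < 2 at hi
        omega
      rcases hi' with rfl | rfl
      · rcases k with ⟨k, hk0⟩
        rcases k' with ⟨k', hk1⟩
        change k < 4 at hk0
        change k' < 4 at hk1
        have hk' : k < k' := hk
        interval_cases k' <;> interval_cases k <;>
          first
          | exact (row_iff a b).1 hab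
          | exact (row_iff a c).1 hac
          | exact (row_iff a d).1 had
          | exact (row_iff b c).1 hbc
          | exact (row_iff b d).1 hbd
          | exact (row_iff c d).1 hcd
      · rcases k with ⟨k, hk0⟩
        rcases k' with ⟨k', hk1⟩
        change k < 2 at hk0
        change k' < 2 at hk1
        have hk' : k < k' := hk
        interval_cases k' <;> interval_cases k
        exact (row_iff e f).1 hef
    · intro i i' k k' hi hk
      rcases i with ⟨i, hi0⟩
      rcases i' with ⟨i', hi1⟩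
      have hi' : i = 0 ∧ i' = 1 := by
        change i < 2 at hi0
        change i' < 2 at hi1
        have : i < i' := hi
        omega
      obtain ⟨rfl, rfl⟩ := hi'
      rcases k with ⟨k, hk0⟩
      rcases k' with ⟨k', hk1⟩
      change k < 4 at hk0
      change k' < 2 at hk1
      have hk' : 0 + k = 1 + k' := hk
      have : (k = 1 ∧ k' = 0) ∨ (k = 2 ∧ k' = 1) := by omega
      rcases this with ⟨rfl, rfl⟩ | ⟨rfl, rfl⟩
      · exact (col_iff b e).1 hbe
      · exact (col_iff c f).1 hcf

/-- the indicator of `Row` -/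
noncomputable def rI (a b : L) : F 3 := if Row a b then 1 else 0

/-- the indicator of `Col` -/
noncomputable def cI (a b : L) : F 3 := if Col a b then 1 else 0

noncomputable def y (a : L) : F 3 := x (num a)

theorem term_mk (a b c d e f : L) : (∏ i, ∏ k, x (num (mk a b c d e f i k)) : F 3) =
    (y a * y b * y c * y d) * (y e * y f) := by
  have h : (∏ i, ∏ k, x (num (mk a b c d e f i k)) : F 3) =
      (∏ k : Fin 4, x (num (mk a b c d e f ⟨0, by decide⟩ k)) : F 3) *
        (∏ k : Fin 2, x (num (mk a b c d e f ⟨1, by decide⟩ k)) : F 3) := by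
    exact Fin.prod_univ_two (fun i : Fin 2 => (∏ k, x (num (mk a b c d e f i k)) : F 3))
  rw [h, Fin.prod_univ_four, Fin.prod_univ_two]
  rfl

open Classical in
theorem schurQ_eq : schurQ [4, 2] 3 = ∑ b : L, ∑ c : L, rI b c * (y b * y c) *
    ((∑ a : L, rI a b * y a) * ((∑ d : L, rI c d * y d) *
      ∑ e : L, ∑ f : L, rI e f * cI b e * cI c f * (y e * y f))) := by
  have h1 : schurQ [4, 2] 3 = ∑ T : Tb, if IsTab T then (∏ i, ∏ k, x (num (T i k)) : F 3) else 0 :=
    rfl
  rw [h1, ← Equiv.sum_comp eqv.symm]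
  simp only [Fintype.sum_prod_type]
  refine Finset.sum_congr rfl fun b _ => Finset.sum_congr rfl fun c _ => ?_
  rw [Finset.sum_mul, Finset.mul_sum]
  refine Finset.sum_congr rfl fun a _ => ?_
  rw [Finset.sum_mul, Finset.mul_sum, Finset.mul_sum]
  refine Finset.sum_congr rfl fun d _ => ?_
  rw [Finset.mul_sum, Finset.mul_sum, Finset.mul_sum]
  refine Finset.sum_congr rfl fun e _ => ?_
  rw [Finset.mul_sum, Finset.mul_sum, Finset.mul_sum]
  refine Finset.sum_congr rfl fun f _ => ?_
  have h2 : eqv.symm (b, c, a, d, e, f) = mk a b c d e f := rfl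
  rw [h2, term_mk, isTab_mk]
  unfold rI cI
  by_cases k1 : Row b c
  · by_cases k2 : Row a b
    · by_cases k3 : Row c d
      · by_cases k4 : Row e f
        · by_cases k5 : Col b e
          · by_cases k6 : Col c f
            · simp only [k1, k2, k3, k4, k5, k6, and_self, if_true]
              ring
            · simp [k6]
          · simp [k5]
        · simp [k4]
      · simp [k3]
    · simp [k2]
  · simp [k1]

end Pool.Agent.Q246.SK
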