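import Pool.Agent.Q246.SK.Q

set_option autoImplicit false

namespace Pool.Agent.Q246.SK

open Polynomial

theorem r00 : rI 0 0 = 0 := if_neg (by decide)
theorem r01 : rI 0 1 = 1 := if_pos (by decide)
theorem r02 : rI 0 2 = 1 := if_pos (by decide)
theorem r03 : rI 0 3 = 1 := if_pos (by decide)
theorem r04 : rI 0 4 = 1 := if_pos (by decide)
theorem r05 : rI 0 5 = 1 := if_pos (by decide)
theorem r10 : rI 1 0 = 0 := if_neg (by decide)
theorem r11 : rI 1 1 = 1 := if_pos (by decide)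
theorem r12 : rI 1 2 = 1 := if_pos (by decide)
theorem r13 : rI 1 3 = 1 := if_pos (by decide)
theorem r14 : rI 1 4 = 1 := if_pos (by decide)
theorem r15 : rI 1 5 = 1 := if_pos (by decide)
theorem r20 : rI 2 0 = 0 := if_neg (by decide)
theorem r21 : rI 2 1 = 0 := if_neg (by decide)
theorem r22 : rI 2 2 = 0 := if_neg (by decide)
theorem r23 : rI 2 3 = 1 := if_pos (by decide)
theorem r24 : rI 2 4 = 1 := if_pos (by decide)
theorem r25 : rI 2 5 = 1 := if_pos (by decide)
theorem r30 : rI 3 0 = 0 := if_neg (by decide)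
theorem r31 : rI 3 1 = 0 := if_neg (by decide)
theorem r32 : rI 3 2 = 0 := if_neg (by decide)
theorem r33 : rI 3 3 = 1 := if_pos (by decide)
theorem r34 : rI 3 4 = 1 := if_pos (by decide)
theorem r35 : rI 3 5 = 1 := if_pos (by decide)
theorem r40 : rI 4 0 = 0 := if_neg (by decide)
theorem r41 : rI 4 1 = 0 := if_neg (by decide)
theorem r42 : rI 4 2 = 0 := if_neg (by decide)
theorem r43 : rI 4 3 = 0 := if_neg (by decide)
theorem r44 : rI 4 4 = 0 := if_neg (by decide)
theorem r45 : rI 4 5 = 1 := if_pos (by decide)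
theorem r50 : rI 5 0 = 0 := if_neg (by decide)
theorem r51 : rI 5 1 = 0 := if_neg (by decide)
theorem r52 : rI 5 2 = 0 := if_neg (by decide)
theorem r53 : rI 5 3 = 0 := if_neg (by decide)
theorem r54 : rI 5 4 = 0 := if_neg (by decide)
theorem r55 : rI 5 5 = 1 := if_pos (by decide)
theorem c00 : cI 0 0 = 1 := if_pos (by decide)
theorem c01 : cI 0 1 = 1 := if_pos (by decide)
theorem c02 : cI 0 2 = 1 := if_pos (by decide)
theorem c03 : cI 0 3 = 1 := if_pos (by decide)
theorem c04 : cI 0 4 = 1 := if_pos (by decide)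
theorem c05 : cI 0 5 = 1 := if_pos (by decide)
theorem c10 : cI 1 0 = 0 := if_neg (by decide)
theorem c11 : cI 1 1 = 0 := if_neg (by decide)
theorem c12 : cI 1 2 = 1 := if_pos (by decide)
theorem c13 : cI 1 3 = 1 := if_pos (by decide)
theorem c14 : cI 1 4 = 1 := if_pos (by decide)
theorem c15 : cI 1 5 = 1 := if_pos (by decide)
theorem c20 : cI 2 0 = 0 := if_neg (by decide)
theorem c21 : cI 2 1 = 0 := if_neg (by decide)
theorem c22 : cI 2 2 = 1 := if_pos (by decide)
theorem c23 : cI 2 3 = 1 := if_pos (by decide)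
theorem c24 : cI 2 4 = 1 := if_pos (by decide)
theorem c25 : cI 2 5 = 1 := if_pos (by decide)
theorem c30 : cI 3 0 = 0 := if_neg (by decide)
theorem c31 : cI 3 1 = 0 := if_neg (by decide)
theorem c32 : cI 3 2 = 0 := if_neg (by decide)
theorem c33 : cI 3 3 = 0 := if_neg (by decide)
theorem c34 : cI 3 4 = 1 := if_pos (by decide)
theorem c35 : cI 3 5 = 1 := if_pos (by decide)
theorem c40 : cI 4 0 = 0 := if_neg (by decide)
theorem c41 : cI 4 1 = 0 := if_neg (by decide)
theorem c42 : cI 4 2 = 0 := if_neg (by decide)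
theorem c43 : cI 4 3 = 0 := if_neg (by decide)
theorem c44 : cI 4 4 = 1 := if_pos (by decide)
theorem c45 : cI 4 5 = 1 := if_pos (by decide)
theorem c50 : cI 5 0 = 0 := if_neg (by decide)
theorem c51 : cI 5 1 = 0 := if_neg (by decide)
theorem c52 : cI 5 2 = 0 := if_neg (by decide)
theorem c53 : cI 5 3 = 0 := if_neg (by decide)
theorem c54 : cI 5 4 = 0 := if_neg (by decide)
theorem c55 : cI 5 5 = 0 := if_neg (by decide)
theorem y0 : y 0 = x 0 := rfl
theorem y1 : y 1 = x 0 := rfl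
theorem y2 : y 2 = x 1 := rfl
theorem y3 : y 3 = x 1 := rfl
theorem y4 : y 4 = x 2 := rfl
theorem y5 : y 5 = x 2 := rfl

theorem sum6 (g : L → F 3) : ∑ a : L, g a = g 0 + g 1 + g 2 + g 3 + g 4 + g 5 :=
  Fin.sum_univ_six g

theorem schurQ_val : schurQ [4, 2] 3 =
    4 * m420 (x 0 : F 3) (x 1) (x 2) + 8 * m411 (x 0 : F 3) (x 1) (x 2) +
      8 * m330 (x 0 : F 3) (x 1) (x 2) + 24 * m321 (x 0 : F 3) (x 1) (x 2) +
      40 * m222 (x 0 : F 3) (x 1) (x 2) := by
  rw [schurQ_eq]
  simp only [sum6]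
  simp only [r00, r01, r02, r03, r04, r05, r10, r11, r12, r13, r14, r15, r20, r21, r22, r23, r24, r25, r30, r31, r32, r33, r34, r35, r40, r41, r42, r43, r44, r45, r50, r51, r52, r53, r54, r55, c00, c01, c02, c03, c04, c05, c10, c11, c12, c13, c14, c15, c20, c21, c22, c23, c24, c25, c30, c31, c32, c33, c34, c35, c40, c41, c42, c43, c44, c45, c50, c51, c52, c53, c54, c55,
    zero_mul, mul_zero, one_mul, mul_one, add_zero, zero_add]
  simp only [y0, y1, y2, y3, y4, y5]
  unfold m420 m411 m330 m321 m222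
  ring

end Pool.Agent.Q246.SK
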